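import Pool.Agent.W188.GP.Stm

/-!
# Project GP: the discrete Hilbert transform is bounded on `ℓ^p`, `p > 1`
-/

set_option autoImplicit false

namespace Pool.Agent.W762.GP

open Pool.Agent.W188.GP

theorem HB_mono {p h h' : ℝ} (hp : 0 ≤ p) (h0 : 0 ≤ h) (hh : h ≤ h') (H : HB p h) : HB p h' := by
  intro S S' a
  refine (H S S' a).trans ?_
  have h1 : h ^ p ≤ h' ^ p := Real.rpow_le_rpow h0 hh hp
  have h2 : 0 ≤ ∑ n ∈ S, ‖a n‖ ^ p := Finset.sum_nonneg fun n _ => by positivity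
  exact mul_le_mul_of_nonneg_right h1 h2

theorem gp_hp (h1 : StH2) (h2 : StDbl) (h3 : StRT) (h4 : StDual) : StHp := by
  have hpow : ∀ j : ℕ, ∃ h : ℝ, 0 ≤ h ∧ HB (2 ^ (j + 1)) h := by
    intro j
    induction j with
    | zero =>
      obtain ⟨h, h0, hh⟩ := h1
      exact ⟨h, h0, by rw [zero_add, pow_one]; exact hh⟩
    | succ j ih =>
      obtain ⟨h, h0, hh⟩ := ih
      obtain ⟨h', h0', hh'⟩ := h2 _ h (one_le_pow₀ one_le_two) h0 hh
      exact ⟨h', h0', by rw [pow_succ, mul_comm]; exact hh'⟩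
  have hge : ∀ p : ℝ, 2 ≤ p → ∃ h : ℝ, 0 ≤ h ∧ HB p h := by
    intro p hp
    obtain ⟨j, hj⟩ := pow_unbounded_of_one_lt p (one_lt_two : (1 : ℝ) < 2)
    obtain ⟨a, a0, ha⟩ := h1
    obtain ⟨b, b0, hb⟩ := hpow j
    have hj' : p ≤ 2 ^ (j + 1) := by
      have h5 : (2 : ℝ) ^ j ≤ 2 ^ (j + 1) := pow_le_pow_right₀ one_le_two (Nat.le_succ j)
      linarith
    have ha' : HB 2 (max a b) := HB_mono (by norm_num) a0 (le_max_left _ _) ha
    have hb' : HB (2 ^ (j + 1)) (max a b) := HB_mono (by positivity) b0 (le_max_right _ _) hb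
    refine ⟨max a b, le_max_of_le_left a0, fun S S' x => ?_⟩
    exact h3 2 (2 ^ (j + 1)) p (max a b) one_lt_two hp hj' (le_max_of_le_left a0) S S'
      (fun m n => hk (m - n)) (fun y => ha' S S' y) (fun y => hb' S S' y) x
  intro p hp
  rcases le_total 2 p with h | h
  · exact hge p h
  · have hp1 : 0 < p - 1 := by linarith
    have hp' : 2 ≤ p / (p - 1) := by
      rw [le_div_iff₀ hp1]; linarith
    obtain ⟨b, b0, hb⟩ := hge _ hp'
    have h5 := h4 _ b (by linarith) b0 hb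
    have e1 : p / (p - 1) / (p / (p - 1) - 1) = p := by
      have : p / (p - 1) - 1 = 1 / (p - 1) := by
        field_simp
        ring
      rw [this]
      field_simp
    rw [e1] at h5
    exact ⟨b, b0, h5⟩

end Pool.Agent.W762.GP
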